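import Mathlib

open Set Metric Real Filter Topology MeasureTheory
open scoped InnerProductSpace

namespace Pool.Agent.H.MP_752b71_an

lemma tr (w : ℂ) (c : ℝ) :
    (max (ENNReal.log ‖w‖ₑ) (c : EReal)).toReal = Real.log (max ‖w‖ (Real.exp c)) := by
  by_cases hw : w = 0
  · subst hw
    simp [max_eq_right (Real.exp_pos c).le]
  · have h0 : 0 < ‖w‖ := norm_pos_iff.2 hw
    have h1 : ENNReal.log ‖w‖ₑ = ((Real.log ‖w‖ : ℝ) : EReal) := by
      rw [← ofReal_norm, ENNReal.log_ofReal_of_pos h0]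
    rw [h1]
    rcases le_total (Real.log ‖w‖) c with h | h
    · rw [max_eq_right (by exact_mod_cast h), max_eq_right ((Real.log_le_iff_le_exp h0).1 h)]
      simp
    · rw [max_eq_left (by exact_mod_cast h), max_eq_left ((Real.le_log_iff_exp_le h0).1 h)]
      simp

lemma jensen {h : ℂ → ℂ} (ha : AnalyticOnNhd ℂ h (closedBall 0 1)) (h0 : h 0 ≠ 0) :
    Real.log ‖h 0‖ ≤ circleAverage (fun z => Real.log ‖h z‖) 0 1 := by
  have ha' : AnalyticOnNhd ℂ h (closedBall 0 |(1:ℝ)|) := by simpa using ha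
  rw [ha'.circleAverage_log_norm one_ne_zero h0, le_add_iff_nonneg_left]
  refine finsum_nonneg fun u => ?_
  by_cases hu : u ∈ closedBall (0:ℂ) |(1:ℝ)|
  · refine mul_nonneg (by exact_mod_cast MeromorphicOn.AnalyticOnNhd.divisor_nonneg ha' u) ?_
    by_cases h1 : u = 0
    · simp [h1]
    · refine Real.log_nonneg ?_
      have : ‖u‖ ≤ 1 := by simpa using hu
      simp only [one_mul, zero_sub, norm_neg]
      exact one_le_inv₀ (norm_pos_iff.2 h1) |>.2 this
  · rw [Function.locallyFinsuppWithin.apply_eq_zero_of_notMem _ hu]; simp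

lemma sub {h : ℂ → ℂ} (ha : AnalyticOnNhd ℂ h (closedBall 0 1)) (c : ℝ) :
    (max (ENNReal.log ‖h 0‖ₑ) (c : EReal)).toReal ≤
      circleAverage (fun z => (max (ENNReal.log ‖h z‖ₑ) (c : EReal)).toReal) 0 1 := by
  simp only [tr]
  have he := Real.exp_pos c
  have hc : ContinuousOn (fun z => Real.log (max ‖h z‖ (Real.exp c))) (sphere 0 |(1:ℝ)|) := by
    refine ContinuousOn.log ?_ fun z _ => (lt_max_of_lt_right he).ne'
    refine ContinuousOn.sup (f := fun z => ‖h z‖) (g := fun _ => Real.exp c) ?_ continuousOn_const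
    exact (ha.continuousOn.mono (by simpa using sphere_subset_closedBall)).norm
  have hi : CircleIntegrable (fun z => Real.log (max ‖h z‖ (Real.exp c))) 0 1 :=
    ContinuousOn.circleIntegrable' hc
  rcases le_or_gt ‖h 0‖ (Real.exp c) with h1 | h1
  · rw [max_eq_right h1, Real.log_exp]
    conv_lhs => rw [← circleAverage_const c 0 1]
    refine circleAverage_mono (circleIntegrable_const _ _ _) hi fun z _ => ?_
    exact (Real.le_log_iff_exp_le (lt_max_of_lt_right he)).2 (le_max_right _ _)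
  · rw [max_eq_left h1.le]
    have h0 : h 0 ≠ 0 := norm_pos_iff.1 (he.trans h1)
    have ha2 : AnalyticOnNhd ℂ (fun z => ((Real.exp (-c) : ℝ) : ℂ) * h z) (closedBall 0 1) :=
      analyticOnNhd_const.mul ha
    have hj := jensen ha2 (mul_ne_zero (by exact_mod_cast (Real.exp_pos _).ne') h0)
    have hn : ∀ z, ‖((Real.exp (-c) : ℝ) : ℂ) * h z‖ = Real.exp (-c) * ‖h z‖ := fun z => by
      rw [norm_mul, Complex.norm_real, Real.norm_of_nonneg (Real.exp_pos _).le]
    have h2 : circleAverage (fun z => Real.log ‖((Real.exp (-c) : ℝ) : ℂ) * h z‖) 0 1 ≤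
        circleAverage (fun z => Real.log (max ‖h z‖ (Real.exp c)) - c) 0 1 := by
      refine circleAverage_mono ?_ (hi.sub (circleIntegrable_const _ _ _)) fun z _ => ?_
      · exact MeromorphicOn.circleIntegrable_log_norm
          ((ha2.mono (by simpa using sphere_subset_closedBall)).meromorphicOn)
      · by_cases hz : h z = 0
        · simp [hz, max_eq_right he.le]
        · rw [hn, Real.log_mul (Real.exp_pos _).ne' (norm_ne_zero_iff.2 hz), Real.log_exp]
          have := Real.log_le_log (norm_pos_iff.2 hz) (le_max_left ‖h z‖ (Real.exp c))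
          linarith
    rw [circleAverage_fun_sub hi (circleIntegrable_const _ _ _), circleAverage_const] at h2
    rw [hn, Real.log_mul (Real.exp_pos _).ne' (norm_ne_zero_iff.2 h0), Real.log_exp] at hj
    linarith

lemma smax {v : ℂ → ℝ} {c M : ℝ} (hv : UpperSemicontinuous v) (h1 : ∀ z, c ≤ v z)
    (h2 : ∀ z, v z ≤ M) (h3 : M ≤ circleAverage v 0 1) : v 1 = M := by
  by_contra hne
  have hlt : v 1 < M := lt_of_le_of_ne (h2 1) hne
  have hm : Measurable fun θ : ℝ => v (circleMap 0 1 θ) :=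
    hv.measurable.comp (continuous_circleMap 0 1).measurable
  have hi : IntervalIntegrable (fun θ : ℝ => v (circleMap 0 1 θ)) volume 0 (2 * π) := by
    refine IntervalIntegrable.mono_fun' (g := fun _ => |c| + |M|) intervalIntegrable_const
      hm.aestronglyMeasurable (Eventually.of_forall fun θ => ?_)
    have := h1 (circleMap 0 1 θ); have := h2 (circleMap 0 1 θ)
    have := le_abs_self M; have := neg_abs_le c; have := abs_nonneg c; have := abs_nonneg M
    exact abs_le.2 ⟨by linarith, by linarith⟩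
  have hev : ∀ᶠ θ : ℝ in 𝓝 0, v (circleMap 0 1 θ) < M := by
    have := (continuous_circleMap 0 1).tendsto 0
    have e : circleMap 0 1 0 = 1 := by simp [circleMap]
    rw [e] at this
    exact this.eventually (hv 1 M hlt)
  obtain ⟨δ, hδ, hb⟩ := Metric.eventually_nhds_iff.1 hev
  have hpos : 0 < ∫ θ in (0:ℝ)..(2 * π), (M - v (circleMap 0 1 θ)) := by
    rw [intervalIntegral.integral_pos_iff_support_of_nonneg_ae
      (Eventually.of_forall fun θ => sub_nonneg.2 (h2 _)) (intervalIntegrable_const.sub hi)]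
    refine ⟨by positivity, lt_of_lt_of_le ?_ (measure_mono (s := Ioo 0 (min δ (2 * π))) ?_)⟩
    · simp [hδ, Real.pi_pos]
    · intro θ hθ
      refine ⟨(sub_pos.2 (hb ?_)).ne', hθ.1, (hθ.2.trans_le (min_le_right _ _)).le⟩
      rw [Real.dist_eq, sub_zero, abs_of_pos hθ.1]
      exact hθ.2.trans_le (min_le_left _ _)
  rw [intervalIntegral.integral_sub intervalIntegrable_const hi] at hpos
  simp only [circleAverage, smul_eq_mul] at h3
  simp only [intervalIntegral.integral_const, sub_zero, smul_eq_mul] at hpos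
  have hp : 0 < 2 * π := by positivity
  rw [le_inv_mul_iff₀ hp] at h3
  linarith

lemma line {h : ℂ → ℂ} {h' z : ℂ} (hh : HasDerivAt h h' z) (v : ℂ) :
    HasDerivAt (fun τ : ℝ => h (z + τ * v)) (h' * v) 0 := by
  have h1 : HasDerivAt (fun w : ℂ => h (z + w * v)) (h' * v) ((0:ℝ):ℂ) := by
    have h2 : HasDerivAt (fun w : ℂ => z + w * v) v ((0:ℝ):ℂ) := by
      simpa using ((hasDerivAt_id ((0:ℝ):ℂ)).mul_const v).const_add z
    have h3 : HasDerivAt h h' (z + ((0:ℝ):ℂ) * v) := by simpa using hh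
    exact h3.comp ((0:ℝ):ℂ) h2
  exact h1.comp_ofReal

lemma dir {G : ℂ → ℝ} {z v : ℂ} {d : ℝ} (hG : DifferentiableAt ℝ G z)
    (hd : HasDerivAt (fun τ : ℝ => G (z + τ * v)) d 0) : fderiv ℝ G z v = d := by
  have h2 : HasDerivAt (fun τ : ℝ => z + τ * v) v 0 := by
    simpa using line (hasDerivAt_id z) v
  have h3 : HasFDerivAt G (fderiv ℝ G z) (z + ((0:ℝ):ℂ) * v) := by simpa using hG.hasFDerivAt
  exact (h3.comp_hasDerivAt 0 h2).unique hd

lemma lre {f : ℝ → ℂ} {d : ℂ} (h : HasDerivAt f d 0) : HasDerivAt (fun τ => (f τ).re) d.re 0 :=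
  Complex.reCLM.hasFDerivAt.comp_hasDerivAt 0 h

lemma lim {f : ℝ → ℂ} {d : ℂ} (h : HasDerivAt f d 0) : HasDerivAt (fun τ => (f τ).im) d.im 0 :=
  Complex.imCLM.hasFDerivAt.comp_hasDerivAt 0 h

variable {ι : Type} [Fintype ι]

noncomputable def N (g : ι → ℂ → ℂ) (z : ℂ) : ℝ := ∑ m, ((g m z).re ^ 2 + (g m z).im ^ 2)

noncomputable def A (g : ι → ℂ → ℂ) (v z : ℂ) : ℝ :=
  ∑ m, (2 * (g m z).re * (deriv (g m) z * v).re + 2 * (g m z).im * (deriv (g m) z * v).im)

lemma cre {h : ℂ → ℂ} {z : ℂ} (ha : AnalyticAt ℂ h z) : ContDiffAt ℝ 2 (fun w => (h w).re) z :=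
  Complex.reCLM.contDiff.contDiffAt.comp z (ha.contDiffAt.restrict_scalars ℝ)

lemma cim {h : ℂ → ℂ} {z : ℂ} (ha : AnalyticAt ℂ h z) : ContDiffAt ℝ 2 (fun w => (h w).im) z :=
  Complex.imCLM.contDiff.contDiffAt.comp z (ha.contDiffAt.restrict_scalars ℝ)

lemma cN {g : ι → ℂ → ℂ} {z : ℂ} (ha : ∀ m, AnalyticAt ℂ (g m) z) : ContDiffAt ℝ 2 (N g) z :=
  ContDiffAt.sum fun m _ => ((cre (ha m)).pow 2).add ((cim (ha m)).pow 2)

lemma cA {g : ι → ℂ → ℂ} {z : ℂ} (ha : ∀ m, AnalyticAt ℂ (g m) z) (v : ℂ) :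
    ContDiffAt ℝ 2 (A g v) z :=
  ContDiffAt.sum fun m _ =>
    ((contDiffAt_const.mul (cre (ha m))).mul (cre ((ha m).deriv.mul analyticAt_const))).add
    ((contDiffAt_const.mul (cim (ha m))).mul (cim ((ha m).deriv.mul analyticAt_const)))

lemma dN {g : ι → ℂ → ℂ} {z : ℂ} (ha : ∀ m, AnalyticAt ℂ (g m) z) (v : ℂ) :
    HasDerivAt (fun τ : ℝ => N g (z + τ * v)) (A g v z) 0 := by
  unfold N A
  refine HasDerivAt.fun_sum fun m _ => ?_
  have h := line (ha m).differentiableAt.hasDerivAt v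
  have := ((lre h).fun_pow 2).fun_add ((lim h).fun_pow 2)
  simpa using this

lemma dA {g : ι → ℂ → ℂ} {z : ℂ} (ha : ∀ m, AnalyticAt ℂ (g m) z) (v : ℂ) :
    HasDerivAt (fun τ : ℝ => A g v (z + τ * v))
      (∑ m, (2 * (deriv (g m) z * v).re ^ 2 + 2 * (deriv (g m) z * v).im ^ 2 +
        2 * (g m z).re * (deriv (deriv (g m)) z * v * v).re +
        2 * (g m z).im * (deriv (deriv (g m)) z * v * v).im)) 0 := by
  unfold A
  refine HasDerivAt.fun_sum fun m _ => ?_
  have h := line (ha m).differentiableAt.hasDerivAt v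
  have h' := (line (ha m).deriv.differentiableAt.hasDerivAt v).mul_const v
  have := (((lre h).const_mul 2).fun_mul (lre h')).fun_add (((lim h).const_mul 2).fun_mul (lim h'))
  refine this.congr_deriv ?_
  simp only [Complex.ofReal_zero, zero_mul, add_zero]
  ring

lemma second {g : ι → ℂ → ℂ} (ha : ∀ m, AnalyticAt ℂ (g m) 0) (h0 : 0 < N g 0) (v : ℂ) :
    iteratedFDeriv ℝ 2 (fun z => Real.log (N g z)) 0 ![v, v] =
      ((∑ m, (2 * (deriv (g m) 0 * v).re ^ 2 + 2 * (deriv (g m) 0 * v).im ^ 2 +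
        2 * (g m 0).re * (deriv (deriv (g m)) 0 * v * v).re +
        2 * (g m 0).im * (deriv (deriv (g m)) 0 * v * v).im)) * N g 0 - A g v 0 * A g v 0) /
        N g 0 ^ 2 := by
  have hc : ContDiffAt ℝ 2 (fun z => Real.log (N g z)) 0 := (cN ha).log h0.ne'
  have hd : DifferentiableAt ℝ (fderiv ℝ fun z => Real.log (N g z)) 0 :=
    (hc.fderiv_right (m := 1) (by norm_num)).differentiableAt (by norm_num)
  have e1 : (fun z => fderiv ℝ (fun z => Real.log (N g z)) z v) =ᶠ[𝓝 0] fun z => A g v z / N g z := by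
    have h1 : ∀ᶠ z in 𝓝 (0:ℂ), ∀ m, AnalyticAt ℂ (g m) z :=
      eventually_all.2 fun m => (ha m).eventually_analyticAt
    have h2 : ∀ᶠ z in 𝓝 (0:ℂ), 0 < N g z := (cN ha).continuousAt.eventually (lt_mem_nhds h0)
    filter_upwards [h1, h2] with z h1 h2
    refine dir (((cN h1).log h2.ne').differentiableAt (by norm_num)) ?_
    have := (dN h1 v).log (by simpa using h2.ne')
    simpa using this
  rw [iteratedFDeriv_two_apply]
  have e2 : fderiv ℝ (fun z => fderiv ℝ (fun z => Real.log (N g z)) z v) 0 v =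
      fderiv ℝ (fderiv ℝ fun z => Real.log (N g z)) 0 v v := by
    rw [fderiv_clm_apply hd (differentiableAt_const v)]
    simp
  simp only [Matrix.cons_val_zero, Matrix.cons_val_one]
  rw [← e2, e1.fderiv_eq]
  refine dir (((cA ha v).div (cN ha) h0.ne').differentiableAt (by norm_num)) ?_
  have := (dA ha v).fun_div (dN ha v) (by simpa using h0.ne')
  simpa using this

lemma lap {g : ι → ℂ → ℂ} (ha : ∀ m, AnalyticAt ℂ (g m) 0) (m0 : ι)
    (h1 : g m0 =ᶠ[𝓝 0] fun _ => 1) (hm : ∃ m, deriv (g m) 0 ≠ 0) :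
    0 < Laplacian.laplacian (fun z => Real.log (N g z)) 0 := by
  classical
  have g0 : g m0 0 = 1 := h1.eq_of_nhds
  have d0 : deriv (g m0) 0 = 0 := by rw [h1.deriv_eq]; simp
  set T := Finset.univ.erase m0
  set P : ℝ := ∑ m ∈ T, ((g m 0).re ^ 2 + (g m 0).im ^ 2) with hP
  set Q : ℝ := ∑ m ∈ T, ((deriv (g m) 0).re ^ 2 + (deriv (g m) 0).im ^ 2) with hQ
  have hN : N g 0 = 1 + P := by
    unfold N
    rw [← Finset.add_sum_erase _ _ (Finset.mem_univ m0), g0]; simp [hP, T]
  have hP0 : 0 ≤ P := Finset.sum_nonneg fun _ _ => by positivity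
  have hQ0 : 0 < Q := by
    obtain ⟨m, hm⟩ := hm
    refine Finset.sum_pos' (fun _ _ => by positivity) ⟨m, ?_, ?_⟩
    · refine Finset.mem_erase.2 ⟨fun e => hm (e ▸ d0), Finset.mem_univ _⟩
    · have := Complex.normSq_pos.2 hm
      rw [Complex.normSq_apply] at this; nlinarith
  have h0 : 0 < N g 0 := by rw [hN]; linarith
  rw [InnerProductSpace.laplacian_eq_iteratedFDeriv_complexPlane]
  simp only [second ha h0]
  rw [← add_div]
  refine div_pos ?_ (by positivity)
  set S : ℂ := ∑ m ∈ T, (starRingEnd ℂ) (g m 0) * deriv (g m) 0 with hS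
  have a1 : A g 1 0 = 2 * S.re := by
    unfold A
    rw [← Finset.add_sum_erase _ _ (Finset.mem_univ m0), d0, hS, Complex.re_sum, Finset.mul_sum]
    simp only [zero_mul, Complex.zero_re, Complex.zero_im, mul_zero, add_zero, zero_add]
    refine Finset.sum_congr rfl fun m _ => ?_
    simp; ring
  have a2 : A g Complex.I 0 = -2 * S.im := by
    unfold A
    rw [← Finset.add_sum_erase _ _ (Finset.mem_univ m0), d0, hS, Complex.im_sum, Finset.mul_sum]
    simp only [zero_mul, Complex.zero_re, Complex.zero_im, mul_zero, add_zero, zero_add]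
    refine Finset.sum_congr rfl fun m _ => ?_
    simp; ring
  have cs : S.re ^ 2 + S.im ^ 2 ≤ P * Q := by
    have e : ∀ w : ℂ, w.re ^ 2 + w.im ^ 2 = ‖w‖ ^ 2 := fun w => by
      rw [Complex.sq_norm, Complex.normSq_apply]; ring
    simp only [hP, hQ, e]
    refine le_trans ?_ (Finset.sum_mul_sq_le_sq_mul_sq T (fun m => ‖g m 0‖) fun m => ‖deriv (g m) 0‖)
    refine pow_le_pow_left₀ (norm_nonneg _) ((norm_sum_le _ _).trans (le_of_eq ?_)) 2
    simp
  have key : ∀ a b x y n : ℝ, a + b = 4 * Q → (a * n - x) + (b * n - y) = 4 * Q * n - x - y := by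
    intro a b x y n h; rw [← h]; ring
  rw [key, a1, a2, hN]
  · nlinarith
  · rw [← Finset.sum_add_distrib, ← Finset.add_sum_erase _ _ (Finset.mem_univ m0), d0, hQ,
      Finset.mul_sum]
    have : ∀ w : ℂ, w * Complex.I * Complex.I = -w := fun w => by
      rw [mul_assoc, Complex.I_mul_I]; ring
    simp only [this]
    rw [show ∀ a b : ℝ, a = 0 → a + b = b from fun a b h => by rw [h, zero_add]]
    · refine Finset.sum_congr rfl fun m _ => ?_
      simp; ring
    · simp; ring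

end Pool.Agent.H.MP_752b71_an
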