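import Mathlib

open Set Metric Filter Topology
open scoped Manifold ContDiff

namespace Pool.Agent.H.MP_752b71_an

abbrev E := ℂ × ℂ × ℂ
abbrev P := (Fin 2 → ℂ) × (Fin 4 → ℂ) × ℂ
abbrev J := Fin 2 × Fin 4

def s (α : Fin 4) (e : E) : P :=
  (![![e.1, 1], ![e.1, 1], ![1, e.1], ![1, e.1]] α,
   ![![1, e.1, e.1 ^ 2 + e.2.2 * e.1 * e.2.1, e.2.1],
     ![e.2.1, e.1 * e.2.1, e.1 ^ 2 * e.2.1 + e.2.2 * e.1, 1],
     ![e.1 * (e.1 - e.2.2 * e.2.1), e.1 - e.2.2 * e.2.1, 1, e.2.1],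
     ![e.1 * (e.1 * e.2.1 - e.2.2), e.1 * e.2.1 - e.2.2, e.2.1, 1]] α, e.2.2)

def bi : Fin 4 → Fin 2 := ![1, 1, 0, 0]
def bo : Fin 4 → Fin 2 := ![0, 0, 1, 1]
def dn : Fin 4 → Fin 4 := ![0, 3, 2, 3]
def nm : Fin 4 → Fin 4 := ![3, 0, 3, 2]

def W (p : P) : Prop := p.1 ≠ 0 ∧ p.2.1 ≠ 0 ∧ ‖p.2.2‖ < 1 ∧ p.1 1 * p.2.1 1 = p.1 0 * p.2.1 0 ∧
  p.1 1 * p.2.1 2 = p.1 0 * (p.2.1 1 + p.2.2 * p.2.1 3)

lemma s_bi (α e) : (s α e).1 (bi α) = 1 := by fin_cases α <;> rfl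
lemma s_bo (α e) : (s α e).1 (bo α) = e.1 := by fin_cases α <;> rfl
lemma s_dn (α e) : (s α e).2.1 (dn α) = 1 := by fin_cases α <;> rfl
lemma s_nm (α e) : (s α e).2.1 (nm α) = e.2.1 := by fin_cases α <;> rfl
lemma s_t (α e) : (s α e).2.2 = e.2.2 := rfl

def D : Set E := {e | ‖e.2.2‖ < 1}

lemma W_s (α) {e} (he : e ∈ D) : W (s α e) := by
  refine ⟨fun h => ?_, fun h => ?_, he, ?_, ?_⟩
  · have := s_bi α e; rw [h] at this; simp at this
  · have := s_dn α e; rw [h] at this; simp at this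
  · fin_cases α <;> simp [s]
  · fin_cases α <;> simp [s] <;> ring

lemma s1 (α i) : ContDiff ℂ ω fun e => (s α e).1 i := by
  fin_cases α <;> fin_cases i <;> simp [s] <;> fun_prop

lemma s2 (α i) : ContDiff ℂ ω fun e => (s α e).2.1 i := by
  fin_cases α <;> fin_cases i <;> simp [s] <;> fun_prop

noncomputable def rat (α : Fin 4) (p : P) : E := (p.1 (bo α) / p.1 (bi α), p.2.1 (nm α) / p.2.1 (dn α), p.2.2)

lemma s_rat (α) {p} (hp : W p) (h1 : p.1 (bi α) ≠ 0) (h2 : p.2.1 (dn α) ≠ 0) :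
    s α (rat α p) = ((p.1 (bi α))⁻¹ • p.1, (p.2.1 (dn α))⁻¹ • p.2.1, p.2.2) := by
  obtain ⟨-, -, -, e1, e2⟩ := hp
  refine Prod.ext (funext fun i => ?_) (Prod.ext (funext fun i => ?_) rfl)
  · fin_cases α <;> fin_cases i <;> simp [s, rat, bi, bo] at h1 ⊢ <;> field_simp
  · fin_cases α <;> fin_cases i <;> simp [s, rat, bi, bo, dn, nm] at h1 h2 ⊢ <;> field_simp <;>
      first
        | linear_combination e1
        | linear_combination -e1
        | linear_combination -e2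
        | linear_combination e2
        | linear_combination -(p.1 0) * e1 - p.1 1 * e2
        | linear_combination (p.1 0) * e1 + p.1 1 * e2

lemma cover {p} (hp : W p) : ∃ α, p.1 (bi α) ≠ 0 ∧ p.2.1 (dn α) ≠ 0 ∧
    ‖p.1 (bo α)‖ ≤ ‖p.1 (bi α)‖ ∧ ‖p.2.1 (nm α)‖ ≤ ‖p.2.1 (dn α)‖ := by
  obtain ⟨h1, h2, -, e1, e2⟩ := hp
  have z : ∀ a b : ℂ, ‖a‖ ≤ ‖b‖ → b = 0 → a = 0 := fun a b h hb => by
    rw [hb, norm_zero] at h; exact norm_le_zero_iff.1 h
  have k1 : ¬(p.1 0 = 0 ∧ p.1 1 = 0) := fun h => h1 (funext fun i => by fin_cases i <;> simp [h])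
  have k2 : ¬(p.2.1 0 = 0 ∧ p.2.1 1 = 0 ∧ p.2.1 2 = 0 ∧ p.2.1 3 = 0) := fun h =>
    h2 (funext fun i => by fin_cases i <;> simp [h])
  rcases le_total ‖p.1 0‖ ‖p.1 1‖ with a | a
  · have y : p.1 1 ≠ 0 := fun h => k1 ⟨z _ _ a h, h⟩
    have k : ¬(p.2.1 0 = 0 ∧ p.2.1 3 = 0) := fun h => by
      have a1 : p.2.1 1 = 0 := by simpa [h.1, y] using e1
      exact k2 ⟨h.1, a1, by simpa [h.2, a1, y] using e2, h.2⟩
    rcases le_total ‖p.2.1 3‖ ‖p.2.1 0‖ with b | b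
    · exact ⟨0, y, fun h => k ⟨h, z _ _ b h⟩, a, b⟩
    · exact ⟨1, y, fun h => k ⟨z _ _ b h, h⟩, a, b⟩
  · have y : p.1 0 ≠ 0 := fun h => k1 ⟨h, z _ _ a h⟩
    have k : ¬(p.2.1 2 = 0 ∧ p.2.1 3 = 0) := fun h => by
      have a1 : p.2.1 1 = 0 := by simpa [h.1, h.2, y] using e2
      exact k2 ⟨by simpa [a1, y] using e1, a1, h.1, h.2⟩
    rcases le_total ‖p.2.1 3‖ ‖p.2.1 2‖ with b | b
    · exact ⟨2, y, fun h => k ⟨h, z _ _ b h⟩, a, b⟩
    · exact ⟨3, y, fun h => k ⟨z _ _ b h, h⟩, a, b⟩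

def sg (p : P) (j : J) : ℂ := p.1 j.1 * p.2.1 j.2

noncomputable def nn (p : P) : ℂ := ∑ j, sg p j * (starRingEnd ℂ) (sg p j)

noncomputable def Φ (p : P) : (J → J → ℂ) × ℂ :=
  (fun j k => sg p j * (starRingEnd ℂ) (sg p k) / nn p, p.2.2)

lemma nn_ne {p} (hp : W p) : nn p ≠ 0 := by
  obtain ⟨α, h1, h2, -⟩ := cover hp
  have : nn p = ((∑ j, Complex.normSq (sg p j) : ℝ) : ℂ) := by simp [nn, Complex.mul_conj]
  rw [this]
  refine Complex.ofReal_ne_zero.2 (ne_of_gt (Finset.sum_pos' (fun _ _ => Complex.normSq_nonneg _)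
    ⟨(bi α, dn α), Finset.mem_univ _, Complex.normSq_pos.2 (mul_ne_zero h1 h2)⟩))

lemma Φ_smul (p : P) {a b : ℂ} (ha : a ≠ 0) (hb : b ≠ 0) : Φ (a • p.1, b • p.2.1, p.2.2) = Φ p := by
  have e : ∀ j, sg (a • p.1, b • p.2.1, p.2.2) j = a * b * sg p j := fun j => by
    simp [sg]; ring
  have hc : a * b * (starRingEnd ℂ) (a * b) ≠ 0 := by simp [ha, hb]
  have n : nn (a • p.1, b • p.2.1, p.2.2) = a * b * (starRingEnd ℂ) (a * b) * nn p := by
    simp only [nn, e, Finset.mul_sum, map_mul]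
    exact Finset.sum_congr rfl fun j _ => by ring
  refine Prod.ext (funext fun j => funext fun k => ?_) rfl
  simp only [Φ, e, n]
  rw [← mul_div_mul_left _ (nn p) hc]
  congr 1
  simp only [map_mul]; ring

def X : Type := {q : (J → J → ℂ) × ℂ // ∃ p, W p ∧ Φ p = q}

instance : TopologicalSpace X := inferInstanceAs (TopologicalSpace (Subtype _))
instance : T2Space X := inferInstanceAs (T2Space (Subtype _))
instance : SecondCountableTopology X := inferInstanceAs (SecondCountableTopology (Subtype _))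

noncomputable def mk (p : P) (hp : W p) : X := ⟨Φ p, p, hp, rfl⟩

lemma ex (q : X) : ∃ p hp, q = mk p hp := by
  obtain ⟨_, p, hp, rfl⟩ := q
  exact ⟨p, hp, rfl⟩

def U (α : Fin 4) : Set X := {q | q.1.1 (bi α, dn α) (bi α, dn α) ≠ 0}

noncomputable def c (α : Fin 4) (q : X) : E :=
  (q.1.1 (bo α, dn α) (bi α, dn α) / q.1.1 (bi α, dn α) (bi α, dn α),
   q.1.1 (bi α, nm α) (bi α, dn α) / q.1.1 (bi α, dn α) (bi α, dn α), q.1.2)

def π (q : X) : ℂ := q.1.2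

lemma memU {α p} (hp : W p) : mk p hp ∈ U α ↔ p.1 (bi α) ≠ 0 ∧ p.2.1 (dn α) ≠ 0 := by
  show sg p _ * (starRingEnd ℂ) (sg p _) / nn p ≠ 0 ↔ _
  simp [sg, nn_ne hp]

lemma c_mk {α p} (hp : W p) (h : mk p hp ∈ U α) : c α (mk p hp) = rat α p := by
  obtain ⟨h1, h2⟩ := (memU hp).1 h
  have := nn_ne hp
  have h3 : (starRingEnd ℂ) (p.1 (bi α) * p.2.1 (dn α)) ≠ 0 := by simp [h1, h2]
  refine Prod.ext ?_ (Prod.ext ?_ rfl) <;> simp only [c, mk, Φ, sg, rat] <;>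
    generalize (starRingEnd ℂ) (p.1 (bi α) * p.2.1 (dn α)) = y at h3 ⊢ <;> field_simp

open Classical in
noncomputable def ci (α : Fin 4) (e : E) : X :=
  if h : e ∈ D then mk (s α e) (W_s α h) else mk (s α 0) (W_s α (by simp [D]))

lemma ci_eq (α) {e} (h : e ∈ D) : ci α e = mk (s α e) (W_s α h) := dif_pos h

lemma c_mem (α) (q : X) : c α q ∈ D := by
  obtain ⟨p, hp, rfl⟩ := ex q
  exact hp.2.2.1

lemma ci_mem (α) {e} (h : e ∈ D) : ci α e ∈ U α := by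
  rw [ci_eq α h, memU, s_bi, s_dn]; simp

lemma c_ci (α) {e} (h : e ∈ D) : c α (ci α e) = e := by
  have := ci_mem α h
  rw [ci_eq α h] at this ⊢
  rw [c_mk _ this]
  simp [rat, s_bi, s_bo, s_dn, s_nm, s_t]

lemma ci_c {α} {q : X} (h : q ∈ U α) : ci α (c α q) = q := by
  rw [ci_eq α (c_mem α q)]
  obtain ⟨p, hp, rfl⟩ := ex q
  obtain ⟨h1, h2⟩ := (memU hp).1 h
  refine Subtype.ext ?_
  show Φ _ = Φ p
  rw [c_mk hp h, s_rat α hp h1 h2, Φ_smul p (inv_ne_zero h1) (inv_ne_zero h2)]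

lemma π_ci (α) {e} (h : e ∈ D) : π (ci α e) = e.2.2 := by rw [ci_eq α h]; rfl

lemma ent (j k : J) : Continuous fun q : X => q.1.1 j k :=
  (continuous_apply k).comp ((continuous_apply j).comp (continuous_fst.comp continuous_subtype_val))

lemma π_cont : Continuous π := continuous_snd.comp continuous_subtype_val

lemma U_open (α) : IsOpen (U α) := isOpen_ne_fun (ent _ _) continuous_const

lemma D_open : IsOpen D := isOpen_lt (by fun_prop) continuous_const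

lemma ci_cont (α) : ContinuousOn (ci α) D := by
  refine (Topology.IsInducing.subtypeVal.continuousOn_iff).2 ?_
  refine ContinuousOn.congr (f := fun e => Φ (s α e)) ?_ fun e he => by
    simp only [Function.comp, ci_eq α he]; rfl
  have h : ∀ j, Continuous fun e => sg (s α e) j := fun j =>
    (s1 α _).continuous.mul (s2 α _).continuous
  refine ContinuousOn.prodMk (continuousOn_pi.2 fun j => continuousOn_pi.2 fun k => ?_)
    (continuous_snd.comp continuous_snd).continuousOn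
  refine ContinuousOn.div ((h j).mul (Complex.continuous_conj.comp (h k))).continuousOn
    (continuous_finsetSum _ fun j _ => (h j).mul (Complex.continuous_conj.comp (h j))).continuousOn
    fun e he => nn_ne (W_s α he)

noncomputable def ch (α : Fin 4) : OpenPartialHomeomorph X E where
  toFun := c α
  invFun := ci α
  source := U α
  target := D
  map_source' q _ := c_mem α q
  map_target' _ h := ci_mem α h
  left_inv' _ h := ci_c h
  right_inv' _ h := c_ci α h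
  open_source := U_open α
  open_target := D_open
  continuousOn_toFun := ((ent _ _).continuousOn.div (ent _ _).continuousOn fun _ h => h).prodMk
    (((ent _ _).continuousOn.div (ent _ _).continuousOn fun _ h => h).prodMk π_cont.continuousOn)
  continuousOn_invFun := ci_cont α

lemma cover' (q : X) : ∃ α, q ∈ U α ∧ ‖(c α q).1‖ ≤ 1 ∧ ‖(c α q).2.1‖ ≤ 1 := by
  obtain ⟨p, hp, rfl⟩ := ex q
  obtain ⟨α, h1, h2, h3, h4⟩ := cover hp
  have h := (memU hp).2 ⟨h1, h2⟩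
  refine ⟨α, h, ?_⟩
  rw [c_mk hp h]
  simp only [rat, norm_div]
  exact ⟨div_le_one_of_le₀ h3 (norm_nonneg _), div_le_one_of_le₀ h4 (norm_nonneg _)⟩

noncomputable instance : ChartedSpace E X where
  atlas := range ch
  chartAt q := ch (cover' q).choose
  mem_chart_source q := (cover' q).choose_spec.1
  chart_mem_atlas _ := mem_range_self _

lemma trans (α β) : ContDiffOn ℂ ω (fun e => c β (ci α e)) {e | e ∈ D ∧ ci α e ∈ U β} := by
  have k : ∀ e ∈ {e | e ∈ D ∧ ci α e ∈ U β}, (s α e).1 (bi β) ≠ 0 ∧ (s α e).2.1 (dn β) ≠ 0 :=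
    fun e he => (memU (W_s α he.1)).1 (ci_eq α he.1 ▸ he.2)
  refine ContDiffOn.congr (f := fun e => rat β (s α e)) ?_ fun e he => ?_
  · exact ((s1 α _).contDiffOn.div (s1 α _).contDiffOn fun e he => (k e he).1).prodMk
      (((s2 α _).contDiffOn.div (s2 α _).contDiffOn fun e he => (k e he).2).prodMk
        (contDiff_snd.comp contDiff_snd).contDiffOn)
  · have := he.2
    rw [ci_eq α he.1] at this ⊢
    exact c_mk _ this

instance : IsManifold 𝓘(ℂ, E) ω X := by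
  refine isManifold_of_contDiffOn _ _ _ ?_
  rintro _ _ ⟨α, rfl⟩ ⟨β, rfl⟩
  have := trans α β
  simp only [mfld_simps]
  exact this

instance : IsManifold 𝓘(ℝ, E) ∞ X := by
  refine isManifold_of_contDiffOn _ _ _ ?_
  rintro _ _ ⟨α, rfl⟩ ⟨β, rfl⟩
  have : ContDiffOn ℝ ∞ _ _ := ((trans α β).restrict_scalars ℝ).of_le le_top
  simp only [mfld_simps]
  exact this

lemma md_c (α) : MDifferentiableOn 𝓘(ℂ, E) 𝓘(ℂ, E) (c α) (U α) :=
  mdifferentiableOn_atlas (I := 𝓘(ℂ, E)) (e := ch α) (mem_range_self α)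

lemma md_ci (α) : MDifferentiableOn 𝓘(ℂ, E) 𝓘(ℂ, E) (ci α) D :=
  mdifferentiableOn_atlas_symm (I := 𝓘(ℂ, E)) (e := ch α) (mem_range_self α)

lemma sm_c (α) : ContMDiffOn 𝓘(ℝ, E) 𝓘(ℝ, E) ∞ (c α) (U α) :=
  contMDiffOn_of_mem_maximalAtlas (I := 𝓘(ℝ, E)) (e := ch α)
    (IsManifold.subset_maximalAtlas (mem_range_self α))

lemma md_π : MDifferentiable 𝓘(ℂ, E) 𝓘(ℂ) π := fun q => by
  obtain ⟨α, h, -⟩ := cover' q
  have h1 := (md_c α q h).mdifferentiableAt ((U_open α).mem_nhds h)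
  have h2 : MDifferentiable 𝓘(ℂ, E) 𝓘(ℂ) fun e : E => e.2.2 :=
    (differentiable_snd.comp differentiable_snd).mdifferentiable
  exact (h2 _).comp q h1

lemma subm (q : X) : Function.Surjective (mfderiv 𝓘(ℂ, E) 𝓘(ℂ) π q) := by
  obtain ⟨α, h, -⟩ := cover' q
  have hD := D_open.mem_nhds (c_mem α q)
  have h1 := (md_ci α _ (c_mem α q)).mdifferentiableAt hD
  have h2 := mfderiv_comp (c α q) (md_π (ci α (c α q))) h1
  have h3 : π ∘ ci α =ᶠ[𝓝 (c α q)] fun e : E => e.2.2 := by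
    filter_upwards [hD] with e he using π_ci α he
  rw [h3.mfderiv_eq, mfderiv_eq_fderiv] at h2
  have h4 : fderiv ℂ (fun e : E => e.2.2) (c α q) =
      (ContinuousLinearMap.snd ℂ ℂ ℂ).comp (ContinuousLinearMap.snd ℂ ℂ (ℂ × ℂ)) :=
    ((ContinuousLinearMap.snd ℂ ℂ ℂ).comp (ContinuousLinearMap.snd ℂ ℂ (ℂ × ℂ))).fderiv
  rw [h4] at h2
  rw [← ci_c h]
  intro y
  exact ⟨_, (DFunLike.congr_fun h2 ((0, 0, y) : E)).symm⟩

lemma range_π : range π = ball 0 1 := by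
  ext t
  constructor
  · rintro ⟨q, rfl⟩
    exact mem_ball_zero_iff.2 (c_mem 0 q)
  · intro ht
    exact ⟨ci 0 (0, 0, t), π_ci 0 (mem_ball_zero_iff.1 ht)⟩

lemma proper (K : Set ℂ) (hK : K ⊆ ball 0 1) (hc : IsCompact K) : IsCompact (π ⁻¹' K) := by
  have hs : closedBall (0:ℂ) 1 ×ˢ closedBall (0:ℂ) 1 ×ˢ K ⊆ D := fun e he =>
    mem_ball_zero_iff.1 (hK he.2.2)
  have : π ⁻¹' K = ⋃ α, ci α '' (closedBall 0 1 ×ˢ closedBall 0 1 ×ˢ K) := by
    ext q
    simp only [mem_iUnion]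
    constructor
    · intro hq
      obtain ⟨α, h, h1, h2⟩ := cover' q
      exact ⟨α, c α q, ⟨mem_closedBall_zero_iff.2 h1, mem_closedBall_zero_iff.2 h2, hq⟩, ci_c h⟩
    · rintro ⟨α, e, he, rfl⟩
      show π _ ∈ K
      rw [π_ci α (hs he)]; exact he.2.2
  rw [this]
  exact isCompact_iUnion fun α => ((isCompact_closedBall _ _).prod
    ((isCompact_closedBall _ _).prod hc)).image_of_continuousOn ((ci_cont α).mono hs)

lemma conn (t : ℂ) (ht : t ∈ ball (0:ℂ) 1) : IsConnected (π ⁻¹' {t}) := by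
  have ht' : ‖t‖ < 1 := mem_ball_zero_iff.1 ht
  have hs : (univ : Set ℂ) ×ˢ (univ : Set ℂ) ×ˢ {t} ⊆ D := fun e he => by
    show ‖e.2.2‖ < 1
    rw [he.2.2]; exact ht'
  have hd : ((1, 1, t) : E) ∈ D := ht'
  have h0 : ∀ α, ci 0 (1, 1, t) ∈ U α := fun α => by
    have : 1 + t ≠ 0 := fun h => by
      have : t = -1 := by linear_combination h
      rw [this] at ht'; simp at ht'
    rw [ci_eq 0 hd, memU]
    fin_cases α <;> simp [s, bi, dn, this]
  have hm : ∀ α, ∀ q ∈ U α, π q = t → q ∈ ci α '' (univ ×ˢ univ ×ˢ {t}) := fun α q h hq =>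
    ⟨c α q, ⟨trivial, trivial, hq⟩, ci_c h⟩
  have : π ⁻¹' {t} = ⋃ α, ci α '' (univ ×ˢ univ ×ˢ {t}) := by
    ext q
    simp only [mem_iUnion]
    constructor
    · intro hq
      obtain ⟨α, h, -⟩ := cover' q
      exact ⟨α, hm α q h hq⟩
    · rintro ⟨α, e, he, rfl⟩
      show π _ = t
      rw [π_ci α (hs he)]; exact he.2.2
  refine ⟨⟨ci 0 (1, 1, t), π_ci 0 hd⟩, ?_⟩
  rw [this]
  refine isPreconnected_iUnion ⟨ci 0 (1, 1, t), mem_iInter.2 fun α => hm α _ (h0 α) (π_ci 0 hd)⟩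
    fun α => ?_
  exact (isPreconnected_univ.prod (isPreconnected_univ.prod isPreconnected_singleton)).image _
    ((ci_cont α).mono hs)

noncomputable def l (α : Fin 4) (q : X) : P := s α (c α q)

lemma rel {α β} {q : X} (ha : q ∈ U α) (hb : q ∈ U β) :
    (l α q).1 (bi β) ≠ 0 ∧ (l α q).2.1 (dn β) ≠ 0 ∧
    l β q = (((l α q).1 (bi β))⁻¹ • (l α q).1, ((l α q).2.1 (dn β))⁻¹ • (l α q).2.1, (l α q).2.2) := by
  have hW := W_s α (c_mem α q)
  have e : q = mk _ hW := by rw [← ci_eq α (c_mem α q), ci_c ha]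
  have hb' : mk _ hW ∈ U β := e ▸ hb
  obtain ⟨h1, h2⟩ := (memU hW).1 hb'
  refine ⟨h1, h2, ?_⟩
  unfold l
  rw [← s_rat β hW h1 h2, ← c_mk hW hb', ← e]

noncomputable def g (α β : Fin 4) (q : X) : ℂ := (l α q).2.1 (dn β) / (l α q).1 (bi β)

lemma md_comp (α) {F : E → ℂ} (hF : ContDiff ℂ ω F) :
    MDifferentiableOn 𝓘(ℂ, E) 𝓘(ℂ) (fun q => F (c α q)) (U α) :=
  (hF.differentiable (by simp)).mdifferentiable.comp_mdifferentiableOn (md_c α)

end Pool.Agent.H.MP_752b71_an
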